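import Pool.Agent.LockedTree.Tight

set_option autoImplicit false

/-!
# A unit tree in three-space which is locked, and tightly so
-/

namespace Pool.Agent.Results.MP_bcbfba_co.TightlyLocked

/-- A configuration of the graph `T` as a unit linkage in three-space: every bar has length one,
bars without a common vertex are disjoint, and two different bars with a common vertex meet only
in the position of that vertex. -/
structure IsConfiguration {V : Type} (T : SimpleGraph V) (p : V → EuclideanSpace ℝ (Fin 3)) :
    Prop where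
  /-- every bar has length one -/
  unit : ∀ u v, T.Adj u v → dist (p u) (p v) = 1
  /-- bars without a common vertex are disjoint -/
  disjoint : ∀ a b c d, T.Adj a b → T.Adj c d → a ≠ c → a ≠ d → b ≠ c → b ≠ d →
    Disjoint (segment ℝ (p a) (p b)) (segment ℝ (p c) (p d))
  /-- two bars at a vertex meet only in the position of this vertex -/
  adjacent : ∀ w a b, T.Adj w a → T.Adj w b → a ≠ b →
    segment ℝ (p w) (p a) ∩ segment ℝ (p w) (p b) = {p w}

/-- A motion starting at `p`: a continuous path of configurations. -/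
structure IsMotion {V : Type} (T : SimpleGraph V) (p : V → EuclideanSpace ℝ (Fin 3))
    (γ : unitInterval → V → EuclideanSpace ℝ (Fin 3)) : Prop where
  continuous : Continuous γ
  start : γ 0 = p
  config : ∀ t, IsConfiguration T (γ t)

private theorem config_of {V : Type} {T : SimpleGraph V} {p : V → EuclideanSpace ℝ (Fin 3)}
    (h1 : ∀ u v, T.Adj u v → dist (p u) (p v) = 1)
    (h2 : ∀ a b c d, T.Adj a b → T.Adj c d → s(a, b) ≠ s(c, d) →
          ∀ x, x ∈ segment ℝ (p a) (p b) → x ∈ segment ℝ (p c) (p d) →
            ∃ w, (w = a ∨ w = b) ∧ (w = c ∨ w = d) ∧ x = p w) : IsConfiguration T p := by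
  refine ⟨h1, ?_, ?_⟩
  · intro a b c d hab hcd hac had hbc hbd
    rw [Set.disjoint_left]
    intro x hx1 hx2
    have hne : s(a, b) ≠ s(c, d) := by
      intro h
      rw [Sym2.eq_iff] at h
      rcases h with ⟨h, -⟩ | ⟨h, -⟩
      · exact hac h
      · exact had h
    obtain ⟨w, hw1, hw2, -⟩ := h2 a b c d hab hcd hne x hx1 hx2
    rcases hw1 with h | h <;> rcases hw2 with h' | h'
    · exact hac (h.symm.trans h')
    · exact had (h.symm.trans h')
    · exact hbc (h.symm.trans h')
    · exact hbd (h.symm.trans h')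
  · intro w a b hwa hwb hab
    ext x
    rw [Set.mem_inter_iff, Set.mem_singleton_iff]
    constructor
    · rintro ⟨hx1, hx2⟩
      have hne : s(w, a) ≠ s(w, b) := by
        intro h
        rw [Sym2.eq_iff] at h
        rcases h with ⟨-, h⟩ | ⟨h, h'⟩
        · exact hab h
        · exact hab (h'.trans h)
      obtain ⟨w', hw1, hw2, hx⟩ := h2 w a w b hwa hwb hne x hx1 hx2
      rcases hw1 with h | h
      · rw [hx, h]
      · rcases hw2 with h' | h'
        · rw [hx, h']
        · exact absurd (h.symm.trans h') hab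
    · rintro rfl
      exact ⟨left_mem_segment ℝ _ _, left_mem_segment ℝ _ _⟩

private theorem of_config {V : Type} {T : SimpleGraph V} {p : V → EuclideanSpace ℝ (Fin 3)}
    (h : IsConfiguration T p) : ∀ a b c d, T.Adj a b → T.Adj c d → s(a, b) ≠ s(c, d) →
          ∀ x, x ∈ segment ℝ (p a) (p b) → x ∈ segment ℝ (p c) (p d) →
            ∃ w, (w = a ∨ w = b) ∧ (w = c ∨ w = d) ∧ x = p w := by
  intro a b c d hab hcd hne x hx1 hx2
  have key : ∀ w u v, T.Adj w u → T.Adj w v → u ≠ v → x ∈ segment ℝ (p w) (p u) →
      x ∈ segment ℝ (p w) (p v) → x = p w := by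
    intro w u v hu hv huv h1 h2
    have h3 : x ∈ segment ℝ (p w) (p u) ∩ segment ℝ (p w) (p v) := ⟨h1, h2⟩
    rw [h.adjacent w u v hu hv huv] at h3
    exact h3
  by_cases hac : a = c
  · subst hac
    refine ⟨a, Or.inl rfl, Or.inl rfl, key a b d hab hcd ?_ hx1 hx2⟩
    rintro rfl
    exact hne rfl
  by_cases had : a = d
  · subst had
    refine ⟨a, Or.inl rfl, Or.inr rfl, key a b c hab hcd.symm ?_ hx1 ?_⟩
    · rintro rfl
      exact hne Sym2.eq_swap
    · rwa [segment_symm]
  by_cases hbc : b = c
  · subst hbc
    refine ⟨b, Or.inr rfl, Or.inl rfl, key b a d hab.symm hcd had ?_ hx2⟩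
    rwa [segment_symm]
  by_cases hbd : b = d
  · subst hbd
    refine ⟨b, Or.inr rfl, Or.inr rfl, key b a c hab.symm hcd.symm hac ?_ ?_⟩
    · rwa [segment_symm]
    · rwa [segment_symm]
  exact absurd hx2 (Set.disjoint_left.1 (h.disjoint a b c d hab hcd hac had hbc hbd) hx1)

/-- There are a finite tree `T` and a configuration `p` of `T` as a unit tree in three-space such
that for every motion starting at `p` and every time `t`: the vertices are not coplanar (so the
configuration at time `t` is not flat), and up to an isometry of three-space all vertices are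
within distance `1/100000` of their initial positions. -/
theorem result :
    ∃ (n : ℕ) (T : SimpleGraph (Fin n)) (p : Fin n → EuclideanSpace ℝ (Fin 3)),
      T.IsTree ∧ IsConfiguration T p ∧
      ∀ γ : unitInterval → Fin n → EuclideanSpace ℝ (Fin 3), IsMotion T p γ →
        ∀ t : unitInterval, ¬ Coplanar ℝ (Set.range (γ t)) ∧
          ∃ g : EuclideanSpace ℝ (Fin 3) ≃ᵢ EuclideanSpace ℝ (Fin 3),
            ∀ v, dist (g (γ t v)) (p v) < 1 / 100000 := by
  obtain ⟨n, G, p, hG, hp1, -, hp3, H⟩ := Pool.Agent.LockedTree.exists_tight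
  refine ⟨n + 1, G, p, hG, config_of hp1 hp3, ?_⟩
  intro γ hγ t
  obtain ⟨⟨g, hg⟩, hA⟩ := H (fun s => γ (Set.projIcc 0 1 zero_le_one s))
    (hγ.continuous.comp continuous_projIcc).continuousOn
    (by
      show γ (Set.projIcc 0 1 zero_le_one 0) = p
      rw [Set.projIcc_left]
      exact hγ.start)
    (fun s _ => ⟨(hγ.config _).unit, of_config (hγ.config _)⟩) t.1 t.2
  rw [Set.projIcc_val] at hA
  simp only [Set.projIcc_val] at hg
  refine ⟨fun hc => hA ⟨affineSpan ℝ (Set.range (γ t)), ?_, ?_⟩, g.toIsometryEquiv, ?_⟩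
  · rw [direction_affineSpan]
    exact coplanar_iff_finrank_le_two.1 hc
  · intro v
    exact subset_affineSpan ℝ _ (Set.mem_range_self v)
  · intro v
    rw [dist_eq_norm]
    exact hg v

end Pool.Agent.Results.MP_bcbfba_co.TightlyLocked
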